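import Pool.Agent.H76.MXT.Stmts

set_option autoImplicit false

namespace Pool.MXT

open Set

theorem glb_between (p q : ℝ) (hpq : p < q) (S : Finset ℝ) : ∃ m, p < m ∧ m < q ∧ m ∉ S := by
  have h : (Ioo p q).Infinite := Ioo_infinite hpq
  obtain ⟨m, hm, hS⟩ := h.exists_notMem_finset S
  exact ⟨m, hm.1, hm.2, hS⟩

theorem glb_thm (hISO : S_ISO) (hCUT : S_CUT) (hRCT : S_RCT) : S_GLB := by
  intro F Z
  induction' hn : Z.card using Nat.strong_induction_on with n ih generalizing Z
  intro i a b c d hab hcd hCon hzero hZ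
  -- the boundary has no zero
  have hbot : ∀ x ∈ Icc a b, F x c ≠ 0 := by
    intro x hx h0
    have := hZ _ (hzero x hx c ⟨le_refl _, hcd.le⟩ h0)
    exact absurd this.2.1.1 (lt_irrefl _)
  have htop : ∀ x ∈ Icc a b, F x d ≠ 0 := by
    intro x hx h0
    have := hZ _ (hzero x hx d ⟨hcd.le, le_refl _⟩ h0)
    exact absurd this.2.1.2 (lt_irrefl _)
  have hleft : ∀ y ∈ Icc c d, F a y ≠ 0 := by
    intro y hy h0
    have := hZ _ (hzero a ⟨le_refl _, hab.le⟩ y hy h0)
    exact absurd this.1.1 (lt_irrefl _)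
  have hright : ∀ y ∈ Icc c d, F b y ≠ 0 := by
    intro y hy h0
    have := hZ _ (hzero b ⟨hab.le, le_refl _⟩ y hy h0)
    exact absurd this.1.2 (lt_irrefl _)
  have hcx : ∀ y ∈ Icc c d, ContinuousOn (fun x => F x y) (Icc a b) := by
    intro y hy
    have h1 : ContinuousOn (fun x : ℝ => ((x, y) : ℝ × ℝ)) (Icc a b) := by fun_prop
    exact hCon.comp h1 (fun x hx => ⟨hx, hy⟩)
  have hcy : ∀ x ∈ Icc a b, ContinuousOn (fun y => F x y) (Icc c d) := by
    intro x hx
    have h1 : ContinuousOn (fun y : ℝ => ((x, y) : ℝ × ℝ)) (Icc c d) := by fun_prop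
    exact hCon.comp h1 (fun y hy => ⟨hx, hy⟩)
  by_cases h1 : ∃ z ∈ Z, ∃ w ∈ Z, z.1 < w.1
  · -- cut vertically
    obtain ⟨z, hz, w, hw, hzw⟩ := h1
    obtain ⟨m, hm1, hm2, hmS⟩ := glb_between z.1 w.1 hzw (Z.image Prod.fst)
    have hma : a < m := lt_trans (hZ z hz).1.1 hm1
    have hmb : m < b := lt_trans hm2 (hZ w hw).1.2
    have hne : ∀ u ∈ Z, u.1 ≠ m := fun u hu h => hmS (Finset.mem_image.2 ⟨u, hu, h⟩)
    have hcut := (hCUT F a b c d hab.le hcd.le).1 m ⟨hma.le, hmb.le⟩
      ⟨hcx c ⟨le_refl _, hcd.le⟩, hbot⟩ ⟨hcx d ⟨hcd.le, le_refl _⟩, htop⟩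
    have hZ1 : (Z.filter (fun u => u.1 < m)).card < n := by
      rw [← hn]
      apply Finset.card_lt_card
      rw [Finset.ssubset_iff_of_subset (Finset.filter_subset _ _)]
      exact ⟨w, hw, fun h => absurd (Finset.mem_filter.1 h).2 (not_lt.2 hm2.le)⟩
    have hZ2 : (Z.filter (fun u => ¬ u.1 < m)).card < n := by
      rw [← hn]
      apply Finset.card_lt_card
      rw [Finset.ssubset_iff_of_subset (Finset.filter_subset _ _)]
      exact ⟨z, hz, fun h => (Finset.mem_filter.1 h).2 hm1⟩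
    obtain ⟨k1, hk1⟩ := ih _ hZ1 _ rfl i a m c d hma hcd
      (hCon.mono (prod_mono (Icc_subset_Icc_right hmb.le) (Subset.refl _)))
      (fun x hx y hy h0 => by
        have hin := hzero x ⟨hx.1, hx.2.trans hmb.le⟩ y hy h0
        exact Finset.mem_filter.2 ⟨hin, lt_of_le_of_ne hx.2 (hne _ hin)⟩)
      (fun u hu => by
        obtain ⟨hu1, hu2⟩ := Finset.mem_filter.1 hu
        exact ⟨⟨(hZ u hu1).1.1, hu2⟩, (hZ u hu1).2⟩)
    obtain ⟨k2, hk2⟩ := ih _ hZ2 _ rfl i m b c d hmb hcd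
      (hCon.mono (prod_mono (Icc_subset_Icc_left hma.le) (Subset.refl _)))
      (fun x hx y hy h0 => by
        have hin := hzero x ⟨hma.le.trans hx.1, hx.2⟩ y hy h0
        exact Finset.mem_filter.2 ⟨hin, not_lt.2 hx.1⟩)
      (fun u hu => by
        obtain ⟨hu1, hu2⟩ := Finset.mem_filter.1 hu
        exact ⟨⟨lt_of_le_of_ne (not_lt.1 hu2) (Ne.symm (hne u hu1)), (hZ u hu1).1.2⟩, (hZ u hu1).2⟩)
    refine ⟨k1 + k2, ?_⟩
    rw [hcut, hk1, hk2]
    have hs := Finset.sum_filter_add_sum_filter_not Z (fun u : ℝ × ℝ => u.1 < m) i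
    rw [← hs]
    push_cast
    ring
  · by_cases h2 : ∃ z ∈ Z, ∃ w ∈ Z, z.2 < w.2
    · -- cut horizontally
      obtain ⟨z, hz, w, hw, hzw⟩ := h2
      obtain ⟨m, hm1, hm2, hmS⟩ := glb_between z.2 w.2 hzw (Z.image Prod.snd)
      have hma : c < m := lt_trans (hZ z hz).2.1.1 hm1
      have hmb : m < d := lt_trans hm2 (hZ w hw).2.1.2
      have hne : ∀ u ∈ Z, u.2 ≠ m := fun u hu h => hmS (Finset.mem_image.2 ⟨u, hu, h⟩)
      have hcut := (hCUT F a b c d hab.le hcd.le).2 m ⟨hma.le, hmb.le⟩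
        ⟨hcy a ⟨le_refl _, hab.le⟩, hleft⟩ ⟨hcy b ⟨hab.le, le_refl _⟩, hright⟩
      have hZ1 : (Z.filter (fun u => u.2 < m)).card < n := by
        rw [← hn]
        apply Finset.card_lt_card
        rw [Finset.ssubset_iff_of_subset (Finset.filter_subset _ _)]
        exact ⟨w, hw, fun h => absurd (Finset.mem_filter.1 h).2 (not_lt.2 hm2.le)⟩
      have hZ2 : (Z.filter (fun u => ¬ u.2 < m)).card < n := by
        rw [← hn]
        apply Finset.card_lt_card
        rw [Finset.ssubset_iff_of_subset (Finset.filter_subset _ _)]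
        exact ⟨z, hz, fun h => (Finset.mem_filter.1 h).2 hm1⟩
      obtain ⟨k1, hk1⟩ := ih _ hZ1 _ rfl i a b c m hab hma
        (hCon.mono (prod_mono (Subset.refl _) (Icc_subset_Icc_right hmb.le)))
        (fun x hx y hy h0 => by
          have hin := hzero x hx y ⟨hy.1, hy.2.trans hmb.le⟩ h0
          exact Finset.mem_filter.2 ⟨hin, lt_of_le_of_ne hy.2 (hne _ hin)⟩)
        (fun u hu => by
          obtain ⟨hu1, hu2⟩ := Finset.mem_filter.1 hu
          exact ⟨(hZ u hu1).1, ⟨(hZ u hu1).2.1.1, hu2⟩, (hZ u hu1).2.2⟩)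
      obtain ⟨k2, hk2⟩ := ih _ hZ2 _ rfl i a b m d hab hmb
        (hCon.mono (prod_mono (Subset.refl _) (Icc_subset_Icc_left hma.le)))
        (fun x hx y hy h0 => by
          have hin := hzero x hx y ⟨hma.le.trans hy.1, hy.2⟩ h0
          exact Finset.mem_filter.2 ⟨hin, not_lt.2 hy.1⟩)
        (fun u hu => by
          obtain ⟨hu1, hu2⟩ := Finset.mem_filter.1 hu
          exact ⟨(hZ u hu1).1, ⟨lt_of_le_of_ne (not_lt.1 hu2) (Ne.symm (hne u hu1)),
            (hZ u hu1).2.1.2⟩, (hZ u hu1).2.2⟩)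
      refine ⟨k1 + k2, ?_⟩
      rw [hcut, hk1, hk2]
      have hs := Finset.sum_filter_add_sum_filter_not Z (fun u : ℝ × ℝ => u.2 < m) i
      rw [← hs]
      push_cast
      ring
    · -- at most one point
      rcases Z.eq_empty_or_nonempty with hE | ⟨z, hz⟩
      · refine ⟨0, ?_⟩
        rw [hRCT F a b c d hab.le hcd.le hCon (fun x hx y hy h0 => by
          have := hzero x hx y hy h0
          rw [hE] at this
          exact absurd this (Finset.notMem_empty _)), hE]
        simp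
      · have huniq : ∀ w ∈ Z, w = z := by
          intro w hw
          apply Prod.ext
          · rcases lt_trichotomy w.1 z.1 with h | h | h
            · exact absurd ⟨w, hw, z, hz, h⟩ h1
            · exact h
            · exact absurd ⟨z, hz, w, hw, h⟩ h1
          · rcases lt_trichotomy w.2 z.2 with h | h | h
            · exact absurd ⟨w, hw, z, hz, h⟩ h2
            · exact h
            · exact absurd ⟨z, hz, w, hw, h⟩ h2
        have hZs : Z = {z} := by
          ext w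
          rw [Finset.mem_singleton]
          exact ⟨huniq w, fun h => h ▸ hz⟩
        obtain ⟨⟨hz1, hz2⟩, ⟨hz3, hz4⟩, δ₀, hδ₀, hLP⟩ := hZ z hz
        obtain ⟨δ, hδ, hd0, hd1, hd2, hd3, hd4⟩ : ∃ δ : ℝ, 0 < δ ∧ δ ≤ δ₀ ∧ a ≤ z.1 - δ ∧
            z.1 + δ ≤ b ∧ c ≤ z.2 - δ ∧ z.2 + δ ≤ d := by
          refine ⟨min δ₀ (min (min (z.1 - a) (b - z.1)) (min (z.2 - c) (d - z.2))), ?_, ?_, ?_, ?_, ?_, ?_⟩
          · refine lt_min hδ₀ (lt_min (lt_min ?_ ?_) (lt_min ?_ ?_)) <;> linarith
          · exact min_le_left _ _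
          · have := (min_le_right δ₀ (min (min (z.1 - a) (b - z.1)) (min (z.2 - c) (d - z.2)))).trans
              ((min_le_left _ _).trans (min_le_left _ _))
            linarith
          · have := (min_le_right δ₀ (min (min (z.1 - a) (b - z.1)) (min (z.2 - c) (d - z.2)))).trans
              ((min_le_left _ _).trans (min_le_right _ _))
            linarith
          · have := (min_le_right δ₀ (min (min (z.1 - a) (b - z.1)) (min (z.2 - c) (d - z.2)))).trans
              ((min_le_right _ _).trans (min_le_left _ _))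
            linarith
          · have := (min_le_right δ₀ (min (min (z.1 - a) (b - z.1)) (min (z.2 - c) (d - z.2)))).trans
              ((min_le_right _ _).trans (min_le_right _ _))
            linarith
        obtain ⟨k, hk⟩ := hLP δ hδ hd0
        refine ⟨k, ?_⟩
        rw [hISO F a b c d z.1 z.2 δ hδ hd1 hd2 hd3 hd4 hCon (fun x hx y hy h0 => by
          have := huniq _ (hzero x hx y hy h0)
          exact ⟨congrArg Prod.fst this, congrArg Prod.snd this⟩)
          (hbot a ⟨le_refl _, hab.le⟩), hk, hZs, Finset.sum_singleton]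

end Pool.MXT
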